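import Pool.Agent.H34.PS.Targets

/-!
# DM: solutions of `y^2 + w^2 = x^2 + b^3 v^2`, uniformly in `b` (`MP_669880_nt`)
-/

set_option autoImplicit false

open Finset

namespace Pool.Agent.H11.PSQ

open Pool.Agent.H34.PS

theorem not_isSquare {b v : ℕ} (hb : 2 ≤ b) (hs : Squarefree b) (hv : 1 ≤ v) :
    ¬ IsSquare (b ^ 3 * v ^ 2) := by
  rintro ⟨m, hm⟩
  have hb0 : b ≠ 0 := by omega
  have hv0 : v ≠ 0 := by omega
  obtain ⟨p, hp, hpb⟩ := Nat.exists_prime_and_dvd (show b ≠ 1 by omega)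
  have h1 : b.factorization p = 1 := by
    have h2 := hs.natFactorization_le_one p
    have h3 := hp.factorization_pos_of_dvd hb0 hpb
    omega
  have hm0 : m ≠ 0 := by
    rintro rfl
    simp [hb0, hv0] at hm
  have h4 : (b ^ 3 * v ^ 2).factorization p = 3 * b.factorization p + 2 * v.factorization p := by
    rw [Nat.factorization_mul (pow_ne_zero _ hb0) (pow_ne_zero _ hv0), Finsupp.add_apply,
      Nat.factorization_pow, Nat.factorization_pow]
    simp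
  have h5 : (m * m).factorization p = 2 * m.factorization p := by
    rw [Nat.factorization_mul hm0 hm0, Finsupp.add_apply]
    ring
  rw [hm, h5, h1] at h4
  omega

theorem pf_DM (hRD : T_RD) (hSG : T_SG) (hNT : T_NT) : T_DM := by
  classical
  intro b Z hb hs hZ
  obtain ⟨hS1, hS2, hS3⟩ := hSG
  have hb0 : (0 : ℝ) < b := by exact_mod_cast (by omega : 0 < b)
  have hb1 : (1 : ℝ) ≤ b := by exact_mod_cast (by omega : 1 ≤ b)
  have hZ0 : (0 : ℝ) ≤ (Z : ℝ) := Nat.cast_nonneg _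
  set S := (range (Z + 1) ×ˢ Icc 1 Z ×ˢ range (Z + 1) ×ˢ range (Z + 1)).filter
      fun a : ℕ × ℕ × ℕ × ℕ =>
      a.2.2.1 ^ 2 + a.2.2.2 ^ 2 = a.1 ^ 2 + b ^ 3 * a.2.1 ^ 2 with hS
  set B : ℝ := (b : ℝ) ^ (3 / 2 : ℝ) with hB
  have hBpos : 0 < B := Real.rpow_pos_of_pos hb0 _
  have hB2 : B ^ 2 = (b : ℝ) ^ 3 := by
    rw [hB, ← Real.rpow_natCast, ← Real.rpow_mul hb0.le, ← Real.rpow_natCast]
    norm_num
  have hlb : 0 ≤ Real.log b := Real.log_nonneg hb1
  have hl4 : 0 ≤ Real.log (4 * b) := Real.log_nonneg (by linarith)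
  have hmem : ∀ a ∈ S, a.1 < Z + 1 ∧ (1 ≤ a.2.1 ∧ a.2.1 ≤ Z) ∧ a.2.2.1 < Z + 1 ∧
      a.2.2.2 < Z + 1 ∧ a.2.2.1 ^ 2 + a.2.2.2 ^ 2 = a.1 ^ 2 + b ^ 3 * a.2.1 ^ 2 := by
    intro a ha
    rw [hS] at ha
    simp only [Finset.mem_filter, Finset.mem_product, Finset.mem_range, Finset.mem_Icc] at ha
    exact ⟨ha.1.1, ha.1.2.1, ha.1.2.2.1, ha.1.2.2.2, ha.2⟩
  have hcard : S.card = ∑ v ∈ Icc 1 Z, (S.filter fun a => a.2.1 = v).card := by
    refine Finset.card_eq_sum_card_fiberwise fun a ha => ?_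
    have h1 := (hmem a ha).2.1
    exact Finset.mem_coe.mpr (Finset.mem_Icc.mpr h1)
  -- fibres
  have hfib : ∀ v ∈ Icc 1 Z, ((S.filter fun a => a.2.1 = v).card : ℝ) ≤
      48 * (2 + Real.log (4 * b)) * (1 + Real.log b) ^ 2 * Z * sg v ^ 2 := by
    intro v hv
    rw [Finset.mem_Icc] at hv
    have h1 := hNT (b ^ 3 * v ^ 2) Z (8 * (2 + Real.log (4 * b)) * sg (b * v) ^ 2) hZ
      (not_isSquare hb hs hv.1) (fun y => hRD b v y hb hs hv.1)
    have h2 : (S.filter fun a => a.2.1 = v).card ≤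
        ((range (Z + 1) ×ˢ range (Z + 1) ×ˢ range (Z + 1)).filter fun a : ℕ × ℕ × ℕ =>
          a.2.1 ^ 2 + a.2.2 ^ 2 = a.1 ^ 2 + b ^ 3 * v ^ 2).card := by
      refine Finset.card_le_card_of_injOn (fun a => (a.1, a.2.2.1, a.2.2.2)) ?_ ?_
      · intro a ha
        rw [Finset.mem_coe, Finset.mem_filter] at ha
        obtain ⟨h3, h4, h5, h6, h7⟩ := hmem a ha.1
        rw [ha.2] at h7
        rw [Finset.mem_coe]
        simp only [Finset.mem_filter, Finset.mem_product, Finset.mem_range]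
        exact ⟨⟨h3, h5, h6⟩, h7⟩
      · intro a ha a' ha' haa
        rw [Finset.mem_coe, Finset.mem_filter] at ha ha'
        simp only [Prod.mk.injEq] at haa
        obtain ⟨x, v1, y, w⟩ := a
        obtain ⟨x', v1', y', w'⟩ := a'
        simp only at haa ha ha'
        obtain ⟨e1, e2, e3⟩ := haa
        rw [e1, e2, e3, ha.2, ha'.2]
    have h3 : sg (b * v) ^ 2 ≤ (1 + Real.log b) ^ 2 * sg v ^ 2 := by
      rw [← mul_pow]
      have h0 : 0 ≤ sg (b * v) := Finset.sum_nonneg fun _ _ => by positivity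
      have h0' : 0 ≤ sg v := Finset.sum_nonneg fun _ _ => by positivity
      exact pow_le_pow_left₀ h0 ((hS1 b v (by omega) hv.1).trans
        (mul_le_mul_of_nonneg_right (hS2 b (by omega)) h0')) 2
    calc ((S.filter fun a => a.2.1 = v).card : ℝ) ≤ _ := by exact_mod_cast h2
      _ ≤ 6 * (8 * (2 + Real.log (4 * b)) * sg (b * v) ^ 2) * (Z : ℝ) := h1
      _ ≤ 6 * (8 * (2 + Real.log (4 * b)) * ((1 + Real.log b) ^ 2 * sg v ^ 2)) * (Z : ℝ) := by
          refine mul_le_mul_of_nonneg_right ?_ hZ0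
          refine mul_le_mul_of_nonneg_left ?_ (by norm_num)
          exact mul_le_mul_of_nonneg_left h3 (by linarith)
      _ = _ := by ring
  -- the range of `v`
  set V : ℕ := ⌊Real.sqrt 2 * Z / B⌋₊ with hV
  have hs2 : 0 ≤ Real.sqrt 2 := Real.sqrt_nonneg 2
  have hVle : (V : ℝ) ≤ Real.sqrt 2 * Z / B := Nat.floor_le (by positivity)
  have hzero : ∀ v ∈ Icc 1 Z, V < v → (S.filter fun a => a.2.1 = v).card = 0 := by
    intro v _ hVv
    rw [Finset.card_eq_zero, Finset.filter_eq_empty_iff]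
    intro a ha hav
    obtain ⟨h3, h4, h5, h6, h7⟩ := hmem a ha
    have h8 : Real.sqrt 2 * Z / B < (v : ℝ) := (Nat.floor_lt (by positivity)).mp hVv
    rw [div_lt_iff₀ hBpos] at h8
    have h9 : (Real.sqrt 2 * Z) ^ 2 < ((v : ℝ) * B) ^ 2 :=
      pow_lt_pow_left₀ h8 (by positivity) two_ne_zero
    rw [mul_pow, mul_pow, Real.sq_sqrt (by norm_num : (0 : ℝ) ≤ 2), hB2] at h9
    have h10 : b ^ 3 * v ^ 2 ≤ 2 * Z ^ 2 := by
      have e1 : a.2.2.1 ^ 2 ≤ Z ^ 2 := Nat.pow_le_pow_left (by omega) 2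
      have e2 : a.2.2.2 ^ 2 ≤ Z ^ 2 := Nat.pow_le_pow_left (by omega) 2
      rw [hav] at h7
      have e3 : b ^ 3 * v ^ 2 ≤ a.1 ^ 2 + b ^ 3 * v ^ 2 := Nat.le_add_left _ _
      omega
    have h11 : (b : ℝ) ^ 3 * (v : ℝ) ^ 2 ≤ 2 * (Z : ℝ) ^ 2 := by exact_mod_cast h10
    linarith [mul_comm ((b : ℝ) ^ 3) ((v : ℝ) ^ 2)]
  set K : ℝ := 48 * (2 + Real.log (4 * b)) * (1 + Real.log b) ^ 2 * Z with hK
  have hK0 : 0 ≤ K := by rw [hK]; positivity
  have hsum : (S.card : ℝ) ≤ ∑ v ∈ Icc 1 V, K * sg v ^ 2 := by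
    rw [hcard, Nat.cast_sum]
    have h1 : ∑ v ∈ Icc 1 Z, ((S.filter fun a => a.2.1 = v).card : ℝ) =
        ∑ v ∈ (Icc 1 Z).filter (fun v => v ≤ V), ((S.filter fun a => a.2.1 = v).card : ℝ) := by
      symm
      refine Finset.sum_subset (Finset.filter_subset _ _) ?_
      intro v hv hv'
      rw [Finset.mem_filter, not_and] at hv'
      rw [hzero v hv (not_le.mp (hv' hv)), Nat.cast_zero]
    rw [h1]
    calc _ ≤ ∑ v ∈ (Icc 1 Z).filter (fun v => v ≤ V), K * sg v ^ 2 :=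
          Finset.sum_le_sum fun v hv => hfib v (Finset.mem_filter.mp hv).1
      _ ≤ _ := by
          refine Finset.sum_le_sum_of_subset_of_nonneg ?_ fun v _ _ => by positivity
          intro v hv
          rw [Finset.mem_filter, Finset.mem_Icc] at hv
          exact Finset.mem_Icc.mpr ⟨hv.1.1, hv.2⟩
  rw [← Finset.mul_sum] at hsum
  have hsq : Real.sqrt 2 ≤ 3 / 2 := by
    rw [Real.sqrt_le_left (by norm_num)]
    norm_num
  have hsq' : Real.sqrt 2 ≤ 1.42 := by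
    rw [Real.sqrt_le_left (by norm_num)]
    norm_num
  calc (S.card : ℝ) ≤ K * ∑ v ∈ Icc 1 V, sg v ^ 2 := hsum
    _ ≤ K * (9 * (V : ℝ)) := mul_le_mul_of_nonneg_left (hS3 V) hK0
    _ ≤ K * (9 * (1.42 * Z / B)) := by
        refine mul_le_mul_of_nonneg_left ?_ hK0
        refine mul_le_mul_of_nonneg_left (hVle.trans ?_) (by norm_num)
        exact div_le_div_of_nonneg_right (mul_le_mul_of_nonneg_right hsq' hZ0) hBpos.le
    _ = (48 * 9 * 1.42) * (Z : ℝ) ^ 2 * ((2 + Real.log (4 * b)) * (1 + Real.log b) ^ 2 / B) := by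
        rw [hK]; ring
    _ ≤ 700 * (Z : ℝ) ^ 2 * ((2 + Real.log (4 * b)) * (1 + Real.log b) ^ 2 / B) := by
        refine mul_le_mul_of_nonneg_right ?_ (by positivity)
        refine mul_le_mul_of_nonneg_right (by norm_num) (by positivity)

end Pool.Agent.H11.PSQ
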