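import Pool.Agent.H34.PS.Targets

/-!
# FN: almost all numbers `β^3 (y^2 + w^2)` are in `SA` and not in `SB` (`MP_669880_nt`)
-/

set_option autoImplicit false

open Finset

namespace Pool.Agent.H11.PSQ

open Pool.Agent.H34.PS

theorem pf_FN (hPW : T_PW) (hSB : T_SB) (hLG : T_LG) : T_FN := by
  classical
  intro β s t hns hβ
  have hβ1 : 1 ≤ β := by
    rcases Nat.eq_zero_or_pos β with h | h
    · exact absurd (h ▸ IsSquare.zero) hns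
    · exact h
  refine ⟨?_, ?_⟩
  · intro y w hy hw
    exact ⟨β ^ 3 * y ^ 2, β ^ 3 * w ^ 2, hPW.2 β y hns hy, hPW.2 β w hns hw, by ring⟩
  · intro ε hε
    obtain ⟨B₁, hB₁⟩ := hLG β s t hβ1 hβ (ε / 2) (by positivity)
    have hδ : 0 < ε / (2 * ((B₁ : ℝ) + 1)) := by positivity
    have hex : ∀ b : ℕ, ∃ Y₀ : ℕ, 2 ≤ b → Squarefree b → ∀ Y ≥ Y₀,
        (((Icc 1 Y ×ˢ Icc 1 Y).filter fun a : ℕ × ℕ =>
          ∃ x v : ℕ, β ^ 3 * (a.1 ^ 2 + a.2 ^ 2) = x ^ 2 + b ^ 3 * v ^ 2).card : ℝ) ≤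
          ε / (2 * ((B₁ : ℝ) + 1)) * (Y : ℝ) ^ 2 := by
      intro b
      by_cases h : 2 ≤ b ∧ Squarefree b
      · obtain ⟨Y₀, hY₀⟩ := hSB β hβ1 b h.1 h.2 _ hδ
        exact ⟨Y₀, fun _ _ => hY₀⟩
      · exact ⟨0, fun h1 h2 => absurd ⟨h1, h2⟩ h⟩
    choose Y₀ hY₀ using hex
    refine ⟨(range (B₁ + 1)).sup Y₀, fun Y hY => ?_⟩
    set U := Icc 1 Y ×ˢ Icc 1 Y with hU
    set G : ℕ → Finset (ℕ × ℕ) := fun b => U.filter fun a : ℕ × ℕ =>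
      ∃ x v : ℕ, β ^ 3 * (a.1 ^ 2 + a.2 ^ 2) = x ^ 2 + b ^ 3 * v ^ 2 with hG
    set F := (range (B₁ + 1)).filter fun b => 2 ≤ b ∧ Squarefree b with hF
    set E := U.filter fun a : ℕ × ℕ => ∃ b x v : ℕ, B₁ < b ∧ Squarefree b ∧ 1 ≤ v ∧
      β ^ 3 * (a.1 ^ 2 + a.2 ^ 2) = x ^ 2 + b ^ 3 * v ^ 2 with hE
    have hsub : (U.filter fun a : ℕ × ℕ => β ^ 3 * (a.1 ^ 2 + a.2 ^ 2) ∈ SB) ⊆
        E ∪ F.biUnion G := by
      intro a ha
      rw [Finset.mem_filter] at ha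
      obtain ⟨haU, x, c, hx, hc, hxc⟩ := ha
      obtain ⟨b, v, hb, hbs, hv, rfl⟩ := hPW.1 c hc
      rw [Finset.mem_union]
      by_cases hbB : B₁ < b
      · left
        rw [hE, Finset.mem_filter]
        exact ⟨haU, b, x, v, hbB, hbs, hv, hxc⟩
      · right
        rw [Finset.mem_biUnion]
        refine ⟨b, ?_, ?_⟩
        · rw [hF, Finset.mem_filter, Finset.mem_range]
          exact ⟨by omega, hb, hbs⟩
        · rw [hG, Finset.mem_filter]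
          exact ⟨haU, x, v, hxc⟩
    have hE1 : (E.card : ℝ) ≤ ε / 2 * (Y : ℝ) ^ 2 := hB₁ Y
    have hG1 : ∀ b ∈ F, ((G b).card : ℝ) ≤ ε / (2 * ((B₁ : ℝ) + 1)) * (Y : ℝ) ^ 2 := by
      intro b hb
      rw [hF, Finset.mem_filter, Finset.mem_range] at hb
      exact hY₀ b hb.2.1 hb.2.2 Y
        ((Finset.le_sup (f := Y₀) (Finset.mem_range.mpr hb.1)).trans hY)
    have hFc : (F.card : ℝ) ≤ (B₁ : ℝ) + 1 := by
      have h1 : F.card ≤ B₁ + 1 := by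
        calc F.card ≤ (range (B₁ + 1)).card := Finset.card_filter_le _ _
          _ = B₁ + 1 := Finset.card_range _
      exact_mod_cast h1
    have hB0 : (0 : ℝ) < (B₁ : ℝ) + 1 := by positivity
    have h3 : ((U.filter fun a : ℕ × ℕ => β ^ 3 * (a.1 ^ 2 + a.2 ^ 2) ∈ SB).card : ℝ) ≤
        (E.card : ℝ) + ∑ b ∈ F, ((G b).card : ℝ) := by
      have h1 := (Finset.card_le_card hsub).trans (Finset.card_union_le _ _)
      have h2 := Finset.card_biUnion_le (s := F) (t := G)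
      have h4 : (U.filter fun a : ℕ × ℕ => β ^ 3 * (a.1 ^ 2 + a.2 ^ 2) ∈ SB).card ≤
          E.card + ∑ b ∈ F, (G b).card := by omega
      exact_mod_cast h4
    calc _ ≤ (E.card : ℝ) + ∑ b ∈ F, ((G b).card : ℝ) := h3
      _ ≤ ε / 2 * (Y : ℝ) ^ 2 + ∑ _b ∈ F, ε / (2 * ((B₁ : ℝ) + 1)) * (Y : ℝ) ^ 2 :=
          add_le_add hE1 (Finset.sum_le_sum hG1)
      _ = ε / 2 * (Y : ℝ) ^ 2 + (F.card : ℝ) * (ε / (2 * ((B₁ : ℝ) + 1)) * (Y : ℝ) ^ 2) := by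
          rw [Finset.sum_const, nsmul_eq_mul]
      _ ≤ ε / 2 * (Y : ℝ) ^ 2 + ((B₁ : ℝ) + 1) * (ε / (2 * ((B₁ : ℝ) + 1)) * (Y : ℝ) ^ 2) := by
          refine add_le_add le_rfl (mul_le_mul_of_nonneg_right hFc (by positivity))
      _ = ε * (Y : ℝ) ^ 2 := by
          field_simp
          ring

end Pool.Agent.H11.PSQ
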